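import Pool.Agent.Lib_helper81.MC.RR

/-! Project MC (MP_b08f5f_an), block RR: `RR_desc`. -/

set_option autoImplicit false

namespace Pool.Agent.Lib_helper68.MC

open MeasureTheory Filter Topology Set
open scoped ComplexConjugate ENNReal NNReal

noncomputable section

/-- the average over the rotations -/
def RD_av (ρ : ℂ → ℝ) (x : ℂ) : ℝ :=
  (2 * Real.pi)⁻¹ * ∫ θ in (0 : ℝ)..2 * Real.pi, ρ (Complex.exp (θ * Complex.I) * x)

theorem RD_meas {ρ : ℂ → ℝ} (h : Measurable ρ) : Measurable (RD_av ρ) := by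
  have hpi := Real.pi_pos
  unfold RD_av
  have h1 : Measurable fun q : ℂ × ℝ => ρ (Complex.exp (q.2 * Complex.I) * q.1) := by
    refine h.comp (Continuous.measurable ?_)
    fun_prop
  have h2 := h1.stronglyMeasurable.integral_prod_right'
    (ν := (volume : Measure ℝ).restrict (Ioc 0 (2 * Real.pi)))
  refine Measurable.const_mul ?_ _
  have h3 : (fun x : ℂ => ∫ θ in (0 : ℝ)..2 * Real.pi, ρ (Complex.exp (θ * Complex.I) * x)) =
      fun x => ∫ θ in Ioc 0 (2 * Real.pi), ρ (Complex.exp (θ * Complex.I) * x) := by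
    funext x
    exact intervalIntegral.integral_of_le (by positivity)
  rw [h3]
  exact h2.measurable

theorem RD_inv (ρ : ℂ → ℝ) (x : ℂ) : RD_av ρ x = RD_av ρ (‖x‖ : ℂ) := by
  unfold RD_av
  congr 1
  have hper : Function.Periodic (fun θ : ℝ => ρ (Complex.exp (θ * Complex.I) * (‖x‖ : ℂ)))
      (2 * Real.pi) := fun θ => by
    have : Complex.exp (((θ + 2 * Real.pi : ℝ) : ℂ) * Complex.I) =
        Complex.exp (θ * Complex.I) := by
      push_cast
      exact Complex.exp_mul_I_periodic θ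
    simp only [this]
  have h1 : ∀ θ : ℝ, ρ (Complex.exp (θ * Complex.I) * x) =
      ρ (Complex.exp (((θ + Complex.arg x : ℝ) : ℂ) * Complex.I) * (‖x‖ : ℂ)) := fun θ => by
    congr 1
    have h2 := Complex.norm_mul_exp_arg_mul_I x
    conv_lhs => rw [← h2]
    push_cast
    rw [add_mul, Complex.exp_add]
    ring
  simp only [h1]
  rw [intervalIntegral.integral_comp_add_right
    (fun θ : ℝ => ρ (Complex.exp (θ * Complex.I) * (‖x‖ : ℂ)))]
  have h2 := hper.intervalIntegral_add_eq (Complex.arg x) 0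
  rw [zero_add] at h2
  rw [zero_add, add_comm (2 * Real.pi)]
  exact h2

theorem RD_ae {ρ : ℂ → ℝ} (h : Dens ρ)
    (hr : ∀ α : ℂ, ‖α‖ = 1 → (fun x => ρ (α * x)) =ᵐ[volume] ρ) : RD_av ρ =ᵐ[volume] ρ := by
  have hpi := Real.pi_pos
  have hm : Measurable fun q : ℂ × ℝ => ρ (Complex.exp (q.2 * Complex.I) * q.1) := by
    refine h.meas.comp (Continuous.measurable ?_)
    fun_prop
  have hS : MeasurableSet {q : ℂ × ℝ | ρ (Complex.exp (q.2 * Complex.I) * q.1) ≠ ρ q.1} :=
    (measurableSet_eq_fun hm (h.meas.comp measurable_fst)).compl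
  -- the exceptional set is null
  have h0 : ((volume : Measure ℂ).prod ((volume : Measure ℝ).restrict (Ioc 0 (2 * Real.pi))))
      {q : ℂ × ℝ | ρ (Complex.exp (q.2 * Complex.I) * q.1) ≠ ρ q.1} = 0 := by
    rw [Measure.prod_apply_symm hS]
    refine lintegral_eq_zero_of_ae_eq_zero ?_
    refine Filter.Eventually.of_forall fun θ => ?_
    have := hr _ (Complex.norm_exp_ofReal_mul_I θ)
    exact ae_iff.1 this
  have h1 : ∀ᵐ x : ℂ, ∀ᵐ θ : ℝ ∂((volume : Measure ℝ).restrict (Ioc 0 (2 * Real.pi))),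
      ρ (Complex.exp ((θ : ℂ) * Complex.I) * x) = ρ x := by
    have h2 := Measure.ae_ae_of_ae_prod (μ := (volume : Measure ℂ))
      (ν := (volume : Measure ℝ).restrict (Ioc 0 (2 * Real.pi)))
      (p := fun q : ℂ × ℝ => ρ (Complex.exp (q.2 * Complex.I) * q.1) = ρ q.1) (ae_iff.2 h0)
    exact h2
  refine h1.mono fun x hx => ?_
  unfold RD_av
  rw [intervalIntegral.integral_of_le (by positivity), integral_congr_ae hx, integral_const]
  simp only [measureReal_restrict_apply_univ, Real.volume_real_Ioc, sub_zero, smul_eq_mul]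
  rw [max_eq_left (by positivity), ← mul_assoc, inv_mul_cancel₀ (by positivity), one_mul]

theorem RR_desc {ρ : ℂ → ℝ} (h : Dens ρ)
    (hr : ∀ α : ℂ, ‖α‖ = 1 → (fun x => ρ (α * x)) =ᵐ[volume] ρ) :
    ∃ g : ℝ → ℝ, Den1 g ∧ ρ =ᵐ[volume] lif g := by
  have hpi := Real.pi_pos
  set g : ℝ → ℝ := (Ioi (0 : ℝ)).indicator
    fun v => RD_av ρ ((Real.sqrt (v / Real.pi) : ℝ) : ℂ) with hg
  have hgm : Measurable g := by
    refine Measurable.indicator ?_ measurableSet_Ioi
    refine (RD_meas h.meas).comp (Continuous.measurable ?_)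
    fun_prop
  have hgz : ∀ v ≤ 0, g v = 0 := fun v hv => by
    rw [hg, indicator_of_notMem (by simpa using hv)]
  have hlif : ∀ x : ℂ, x ≠ 0 → lif g x = RD_av ρ x := fun x hx => by
    have hx0 : 0 < ‖x‖ := norm_pos_iff.2 hx
    unfold lif
    rw [hg, indicator_of_mem (by simp only [mem_Ioi]; positivity), RD_inv ρ x]
    congr 2
    rw [mul_div_cancel_left₀ _ hpi.ne', Real.sqrt_sq hx0.le]
  have hae0 : ∀ᵐ x : ℂ, x ≠ 0 := by
    rw [ae_iff]
    simp
  have hae : ρ =ᵐ[volume] lif g := by
    filter_upwards [hae0, RD_ae h hr] with x hx h1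
    rw [hlif x hx, h1]
  have hnn : ∀ v, 0 ≤ g v := fun v => by
    refine indicator_nonneg (fun v _ => ?_) v
    unfold RD_av
    refine mul_nonneg (by positivity) ?_
    refine intervalIntegral.integral_nonneg (by positivity) fun θ _ => h.nonneg _
  have hcomp : ∀ {F : ℝ → ℝ}, Measurable F → (∀ v ≤ 0, F v = 0) →
      Integrable (fun x => F (RR_T x)) → Integrable F := fun {F} hF hz hi => by
    have h1 : Integrable F (Measure.map RR_T volume) :=
      (integrable_map_measure hF.aestronglyMeasurable RR_T_cont.measurable.aemeasurable).2 hi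
    rw [RR_map] at h1
    refine (integrableOn_iff_integrable_of_support_subset (s := Ici 0) fun v hv => ?_).1 h1
    by_contra hc
    exact hv (hz v (not_le.1 hc).le)
  have hint : Integrable fun x => g (RR_T x) := h.int.congr hae
  have hlm : Measurable fun v => g v * Real.log (g v) := hgm.mul hgm.log
  have hmm : Measurable fun v => v * g v := measurable_id.mul hgm
  refine ⟨g, ⟨hgm, hnn, hgz, hcomp hgm hgz hint, ?_, ?_, ?_⟩, hae⟩
  · have h1 := RR_integral hgm (fun v hv => hgz v hv.le)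
    rw [← h1, ← h.one]
    exact (integral_congr_ae hae).symm
  · refine hcomp hlm (fun v hv => by simp [hgz v hv]) ?_
    refine h.ent.congr (hae.mono fun x hx => ?_)
    simp only [hx]
    rfl
  · refine hcomp hmm (fun v hv => by simp [hgz v hv]) ?_
    have h1 := h.mom.const_mul Real.pi
    refine h1.congr (hae.mono fun x hx => ?_)
    simp only [hx]
    unfold lif RR_T
    ring

end

end Pool.Agent.Lib_helper68.MC
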