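import Pool.Agent.Lib_helper68.MC.DefsD
import Pool.Agent.Lib_helper89.MC.EN

/-! Project MC (MP_b08f5f_an), block RR: radial densities (`RR_lift`, `RR_en`). -/

set_option autoImplicit false

namespace Pool.Agent.Lib_helper68.MC

open MeasureTheory Filter Topology Set
open scoped ComplexConjugate ENNReal NNReal

noncomputable section

/-- the area of the disc through `x` -/
def RR_T : ℂ → ℝ := fun x => Real.pi * ‖x‖ ^ 2

theorem RR_T_cont : Continuous RR_T := by
  unfold RR_T
  fun_prop

theorem RR_T_nonneg (x : ℂ) : 0 ≤ RR_T x := by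
  unfold RR_T
  positivity

theorem RR_pre {a : ℝ} (ha : 0 ≤ a) :
    RR_T ⁻¹' Iic a = Metric.closedBall (0 : ℂ) (Real.sqrt (a / Real.pi)) := by
  have hpi := Real.pi_pos
  ext x
  simp only [mem_preimage, mem_Iic, mem_closedBall_iff_norm, sub_zero, RR_T]
  rw [Real.le_sqrt (norm_nonneg x) (by positivity), le_div_iff₀ hpi, mul_comm]

theorem RR_vol {a : ℝ} (ha : 0 ≤ a) : volume (RR_T ⁻¹' Iic a) = ENNReal.ofReal a := by
  have hpi := Real.pi_pos
  rw [RR_pre ha, Complex.volume_closedBall, ← ENNReal.ofReal_pow (Real.sqrt_nonneg _),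
    Real.sq_sqrt (by positivity)]
  have : (NNReal.pi : ℝ≥0∞) = ENNReal.ofReal Real.pi :=
    (ENNReal.ofReal_coe_nnreal (p := NNReal.pi)).symm
  rw [this, ← ENNReal.ofReal_mul (by positivity)]
  congr 1
  field_simp

/-- MAP -/
theorem RR_map : Measure.map RR_T volume = (volume : Measure ℝ).restrict (Ici 0) := by
  have hfin : IsLocallyFiniteMeasure ((volume : Measure ℝ).restrict (Ici 0)) := inferInstance
  symm
  refine Measure.ext_of_Ioc _ _ fun a b hab => ?_
  rw [Measure.map_apply RR_T_cont.measurable measurableSet_Ioc,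
    Measure.restrict_apply measurableSet_Ioc]
  rcases lt_or_ge b 0 with hb | hb
  · have h1 : Ioc a b ∩ Ici 0 = ∅ := by
      ext v
      simp only [mem_inter_iff, mem_Ioc, mem_Ici, mem_empty_iff_false, iff_false]
      intro h
      linarith [h.1.2, h.2]
    have h2 : RR_T ⁻¹' Ioc a b = ∅ := by
      ext x
      simp only [mem_preimage, mem_Ioc, mem_empty_iff_false, iff_false]
      intro h
      linarith [h.2, RR_T_nonneg x]
    rw [h1, h2, measure_empty, measure_empty]
  · rcases lt_or_ge a 0 with ha | ha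
    · have h1 : Ioc a b ∩ Ici 0 = Icc 0 b := by
        ext v
        simp only [mem_inter_iff, mem_Ioc, mem_Ici, mem_Icc]
        exact ⟨fun h => ⟨h.2, h.1.2⟩, fun h => ⟨⟨by linarith [h.1], h.2⟩, h.1⟩⟩
      have h2 : RR_T ⁻¹' Ioc a b = RR_T ⁻¹' Iic b := by
        ext x
        simp only [mem_preimage, mem_Ioc, mem_Iic]
        exact ⟨fun h => h.2, fun h => ⟨by linarith [RR_T_nonneg x], h⟩⟩
      rw [h1, h2, RR_vol hb, Real.volume_Icc, sub_zero]
    · have h1 : Ioc a b ∩ Ici 0 = Ioc a b := by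
        refine inter_eq_left.2 fun v hv => ?_
        exact ha.trans hv.1.le
      have h2 : RR_T ⁻¹' Ioc a b = RR_T ⁻¹' Iic b \ RR_T ⁻¹' Iic a := by
        ext x
        simp only [mem_preimage, mem_Ioc, mem_Iic, Set.mem_sdiff, not_le]
        exact and_comm
      have hm : MeasurableSet (RR_T ⁻¹' Iic a) := RR_T_cont.measurable measurableSet_Iic
      rw [h1, h2, measure_sdiff (preimage_mono (Iic_subset_Iic.2 hab.le)) hm.nullMeasurableSet
        (by rw [RR_vol ha]; exact ENNReal.ofReal_ne_top), RR_vol hb, RR_vol ha, Real.volume_Ioc,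
        ENNReal.ofReal_sub _ ha]

theorem RR_mp : MeasurePreserving RR_T volume ((volume : Measure ℝ).restrict (Ici 0)) :=
  ⟨RR_T_cont.measurable, RR_map⟩

theorem RR_integrable {F : ℝ → ℝ} (hF : Measurable F) (hi : Integrable F) : Integrable fun x => F (RR_T x) := by
  have h1 : Integrable F (Measure.map RR_T volume) := by
    rw [RR_map]
    exact hi.restrict
  exact (integrable_map_measure hF.aestronglyMeasurable RR_T_cont.measurable.aemeasurable).1 h1

theorem RR_integral {F : ℝ → ℝ} (hF : Measurable F) (hz : ∀ v < 0, F v = 0) :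
    ∫ x, F (RR_T x) = ∫ v, F v := by
  have h1 := integral_map RR_T_cont.measurable.aemeasurable
    (f := F) (μ := (volume : Measure ℂ)) hF.aestronglyMeasurable
  rw [← h1, RR_map]
  exact setIntegral_eq_integral_of_forall_compl_eq_zero fun v hv => hz v (not_le.1 hv)

theorem RR_lift {g : ℝ → ℝ} (h : Den1 g) : Dens (lif g) ∧ mean (lif g) = 0 ∧
    Sent (lif g) = S1 g ∧ mo (lif g) = Real.pi⁻¹ * ∫ v, v * g v := by
  have hpi := Real.pi_pos
  have hz : ∀ v < 0, g v = 0 := fun v hv => h.zero v hv.le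
  have hlm : Measurable fun v => g v * Real.log (g v) := h.meas.mul (h.meas.log)
  have hmm : Measurable fun v => v * g v := measurable_id.mul h.meas
  have hmom : ∀ x : ℂ, ‖x‖ ^ 2 * lif g x = Real.pi⁻¹ * (RR_T x * g (RR_T x)) := fun x => by
    unfold lif RR_T
    field_simp
  refine ⟨⟨h.meas.comp RR_T_cont.measurable, fun x => h.nonneg _, RR_integrable h.meas h.int,
    ?_, ?_, ?_⟩, ?_, ?_, ?_⟩
  · exact (RR_integral h.meas hz).trans h.one
  · exact RR_integrable hlm h.ent
  · simp only [hmom]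
    exact (RR_integrable hmm h.mom).const_mul _
  · unfold mean
    have h1 := integral_neg_eq_self (fun x : ℂ => (lif g x : ℂ) * x) volume
    have h2 : ∀ x : ℂ, (lif g (-x) : ℂ) * (-x) = -((lif g x : ℂ) * x) := fun x => by
      have : lif g (-x) = lif g x := by
        unfold lif
        rw [norm_neg]
      rw [this]
      ring
    simp only [h2] at h1
    rw [integral_neg] at h1
    exact self_eq_neg.1 h1.symm
  · unfold Sent S1
    congr 1
    exact RR_integral hlm (fun v hv => by simp [hz v hv])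
  · unfold mo
    simp only [hmom]
    rw [integral_const_mul]
    congr 1
    exact RR_integral hmm (fun v hv => by simp [hz v hv])

/-! ### the energy -/

/-- the average of `log |x - e^(iθ) y|` -/
theorem RR_circle (x : ℂ) {y : ℂ} (hy : y ≠ 0) :
    ∫ θ in (0 : ℝ)..2 * Real.pi, Real.log ‖x - Complex.exp (θ * Complex.I) * y‖ =
      2 * Real.pi * Real.log (max ‖x‖ ‖y‖) := by
  have hpi := Real.pi_pos
  have hr : 0 < ‖y‖ := norm_pos_iff.2 hy
  have hav := circleAverage_log_norm_sub_const_eq_log_radius_add_posLog (a := x / (y / ‖y‖))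
    (c := 0) (R := ‖y‖) hr.ne'
  rw [Real.circleAverage_def] at hav
  have hu : ‖y / (‖y‖ : ℂ)‖ = 1 := by
    rw [norm_div, Complex.norm_real, norm_norm, div_self hr.ne']
  have hu0 : y / (‖y‖ : ℂ) ≠ 0 := by
    intro h
    rw [h, norm_zero] at hu
    exact zero_ne_one hu
  have hr0 : (‖y‖ : ℂ) ≠ 0 := by exact_mod_cast hr.ne'
  have e1 : ∀ θ : ℝ, ‖circleMap 0 ‖y‖ θ - x / (y / ‖y‖)‖ =
      ‖x - Complex.exp (θ * Complex.I) * y‖ := fun θ => by
    have : x - Complex.exp (θ * Complex.I) * y =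
        -((circleMap 0 ‖y‖ θ - x / (y / ‖y‖)) * (y / ‖y‖)) := by
      rw [sub_mul, div_mul_cancel₀ _ hu0, circleMap, zero_add]
      field_simp
      ring
    rw [this, norm_neg, norm_mul, hu, mul_one]
  have hn : ‖(0 : ℂ) - x / (y / ‖y‖)‖ = ‖x‖ := by
    rw [zero_sub, norm_neg, norm_div, hu, div_one]
  simp only [e1] at hav
  rw [hn, smul_eq_mul] at hav
  have h3 : ∫ θ in (0 : ℝ)..2 * Real.pi, Real.log ‖x - Complex.exp (θ * Complex.I) * y‖ =
      2 * Real.pi * (Real.log ‖y‖ + Real.posLog (‖y‖⁻¹ * ‖x‖)) := by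
    rw [← hav, ← mul_assoc, mul_inv_cancel₀ (by positivity), one_mul]
  rw [h3, Real.posLog_eq_log_max_one (by positivity), ← Real.log_mul hr.ne' (by positivity)]
  congr 2
  rw [mul_max_of_nonneg _ _ hr.le, mul_one, max_comm, ← mul_assoc, mul_inv_cancel₀ hr.ne', one_mul]

/-- the rotation of the second variable preserves the measure -/
theorem RR_rot {a : ℂ} (ha : ‖a‖ = 1) :
    MeasurePreserving (fun p : ℂ × ℂ => (p.1, a * p.2)) (volume.prod volume)
      (volume.prod volume) := by
  have h1 : MeasurePreserving (fun y : ℂ => a * y) volume volume := by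
    have := (rotation ⟨a, mem_sphere_zero_iff_norm.2 ha⟩).measurePreserving
    exact this
  exact (MeasurePreserving.id volume).prod h1

/-- the function of the energy -/
def RR_F (ρ : ℂ → ℝ) (p : ℂ × ℂ) (θ : ℝ) : ℝ :=
  Real.log ‖p.1 - Complex.exp (θ * Complex.I) * p.2‖ * (ρ p.1 * ρ p.2)

theorem RR_F_meas {ρ : ℂ → ℝ} (h : Measurable ρ) :
    Measurable fun q : (ℂ × ℂ) × ℝ => RR_F ρ q.1 q.2 := by
  unfold RR_F
  have h1 : Measurable fun q : (ℂ × ℂ) × ℝ =>
      ‖q.1.1 - Complex.exp (q.2 * Complex.I) * q.1.2‖ := by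
    refine Continuous.measurable ?_
    fun_prop
  exact h1.log.mul ((h.comp (measurable_fst.comp measurable_fst)).mul
    (h.comp (measurable_snd.comp measurable_fst)))

theorem RR_F_rot {ρ : ℂ → ℝ} (hr : ∀ a : ℂ, ‖a‖ = 1 → ∀ x, ρ (a * x) = ρ x) (θ : ℝ)
    (p : ℂ × ℂ) : RR_F ρ p θ = (fun q : ℂ × ℂ => Real.log ‖q.1 - q.2‖ * (ρ q.1 * ρ q.2))
      (p.1, Complex.exp (θ * Complex.I) * p.2) := by
  unfold RR_F
  simp only
  rw [hr _ (Complex.norm_exp_ofReal_mul_I θ)]

/-- the energy of a radial density, angular part -/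
theorem RR_max {ρ : ℂ → ℝ} (h : Dens ρ) (hr : ∀ a : ℂ, ‖a‖ = 1 → ∀ x, ρ (a * x) = ρ x) :
    Integrable (fun p : ℂ × ℂ => Real.log (max ‖p.1‖ ‖p.2‖) * (ρ p.1 * ρ p.2)) ∧
    ∫ p : ℂ × ℂ, Real.log ‖p.1 - p.2‖ * (ρ p.1 * ρ p.2) =
      ∫ p : ℂ × ℂ, Real.log (max ‖p.1‖ ‖p.2‖) * (ρ p.1 * ρ p.2) := by
  have hpi := Real.pi_pos
  have hint := EN_int h h
  set G : ℂ × ℂ → ℝ := fun q => Real.log ‖q.1 - q.2‖ * (ρ q.1 * ρ q.2) with hG
  have hGm : Measurable G := by
    have h1 : Measurable fun q : ℂ × ℂ => ‖q.1 - q.2‖ := by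
      refine Continuous.measurable ?_
      fun_prop
    exact h1.log.mul ((h.meas.comp measurable_fst).mul (h.meas.comp measurable_snd))
  -- every rotation gives the same integral
  have hi : ∀ θ : ℝ, Integrable (fun p => RR_F ρ p θ) (volume.prod volume) := fun θ => by
    have h1 := (RR_rot (Complex.norm_exp_ofReal_mul_I θ)).integrable_comp
      (g := G) hGm.aestronglyMeasurable
    have h2 := h1.2 hint
    refine h2.congr (Filter.Eventually.of_forall fun p => ?_)
    exact (RR_F_rot hr θ p).symm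
  have hn : ∀ θ : ℝ, ∫ p, ‖RR_F ρ p θ‖ ∂(volume.prod volume) =
      ∫ p, ‖G p‖ ∂(volume.prod volume) := fun θ => by
    have h1 := integral_map (RR_rot (Complex.norm_exp_ofReal_mul_I θ)).measurable.aemeasurable
      (f := fun p => ‖G p‖) (μ := (volume.prod volume : Measure (ℂ × ℂ)))
      hGm.norm.aestronglyMeasurable
    rw [(RR_rot (Complex.norm_exp_ofReal_mul_I θ)).map_eq] at h1
    rw [h1]
    refine integral_congr_ae (Filter.Eventually.of_forall fun p => ?_)
    simp only [RR_F_rot hr θ p, hG]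
  have hv : ∀ θ : ℝ, ∫ p, RR_F ρ p θ ∂(volume.prod volume) =
      ∫ p, G p ∂(volume.prod volume) := fun θ => by
    have h1 := integral_map (RR_rot (Complex.norm_exp_ofReal_mul_I θ)).measurable.aemeasurable
      (f := G) (μ := (volume.prod volume : Measure (ℂ × ℂ))) hGm.aestronglyMeasurable
    rw [(RR_rot (Complex.norm_exp_ofReal_mul_I θ)).map_eq] at h1
    rw [h1]
    refine integral_congr_ae (Filter.Eventually.of_forall fun p => ?_)
    simp only [RR_F_rot hr θ p, hG]
  -- integrability on the product with the circle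
  have hprod : Integrable (fun q : (ℂ × ℂ) × ℝ => RR_F ρ q.1 q.2)
      ((volume.prod volume).prod (volume.restrict (Ioc 0 (2 * Real.pi)))) := by
    rw [integrable_prod_iff' (RR_F_meas h.meas).aestronglyMeasurable]
    refine ⟨Filter.Eventually.of_forall hi, ?_⟩
    simp only [hn]
    exact integrable_const _
  have hleft := hprod.integral_prod_left
  have hswap := integral_integral_swap (f := fun p θ => RR_F ρ p θ) hprod
  -- the inner integral
  have hinner : ∀ p : ℂ × ℂ, p.2 ≠ 0 → ∫ θ in Ioc 0 (2 * Real.pi), RR_F ρ p θ =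
      2 * Real.pi * (Real.log (max ‖p.1‖ ‖p.2‖) * (ρ p.1 * ρ p.2)) := fun p hp => by
    unfold RR_F
    rw [integral_mul_const, ← intervalIntegral.integral_of_le (by positivity), RR_circle p.1 hp]
    ring
  have hae : ∀ᵐ p : ℂ × ℂ ∂(volume.prod volume), p.2 ≠ 0 := by
    have h0 : (volume.prod volume : Measure (ℂ × ℂ)) (univ ×ˢ {0}) = 0 := by
      rw [Measure.prod_prod]
      simp
    rw [ae_iff]
    refine measure_mono_null (fun p hp => ?_) h0
    simp only [ne_eq, Decidable.not_not, Set.mem_ofPred_eq] at hp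
    exact ⟨mem_univ _, hp⟩
  have hae2 : (fun p : ℂ × ℂ => ∫ θ in Ioc 0 (2 * Real.pi), RR_F ρ p θ) =ᵐ[volume.prod volume]
      fun p => 2 * Real.pi * (Real.log (max ‖p.1‖ ‖p.2‖) * (ρ p.1 * ρ p.2)) :=
    hae.mono fun p hp => hinner p hp
  have hI1 : Integrable (fun p : ℂ × ℂ => Real.log (max ‖p.1‖ ‖p.2‖) * (ρ p.1 * ρ p.2))
      (volume.prod volume) := by
    have h1 := (hleft.congr hae2).const_mul (2 * Real.pi)⁻¹
    refine h1.congr (Filter.Eventually.of_forall fun p => ?_)
    simp only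
    rw [← mul_assoc, inv_mul_cancel₀ (by positivity), one_mul]
  refine ⟨hI1, ?_⟩
  rw [integral_congr_ae hae2, integral_const_mul] at hswap
  simp only [hv] at hswap
  rw [integral_const] at hswap
  simp only [measureReal_restrict_apply_univ, Real.volume_real_Ioc, sub_zero, smul_eq_mul] at hswap
  rw [max_eq_left (by positivity)] at hswap
  exact (mul_left_cancel₀ (by positivity) hswap).symm

theorem RR_en {g : ℝ → ℝ} (h : Den1 g) :
    En (lif g) (lif g) = -(1 / (8 * Real.pi)) * (L1 g - Real.log Real.pi) := by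
  have hpi := Real.pi_pos
  have hd := (RR_lift h).1
  have hr : ∀ a : ℂ, ‖a‖ = 1 → ∀ x, lif g (a * x) = lif g x := fun a ha x => by
    unfold lif
    rw [norm_mul, ha, one_mul]
  obtain ⟨hI, hE⟩ := RR_max hd hr
  unfold En
  rw [hE]
  -- the function on the quadrant
  set K : ℝ × ℝ → ℝ := fun p => 1 / 2 * (Real.log (max p.1 p.2) - Real.log Real.pi) *
    (g p.1 * g p.2) with hK
  have hKm : Measurable K := by
    have h1 : Measurable fun p : ℝ × ℝ => max p.1 p.2 := measurable_fst.max measurable_snd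
    exact ((h1.log.sub_const _).const_mul _).mul
      ((h.meas.comp measurable_fst).mul (h.meas.comp measurable_snd))
  have hmp : MeasurePreserving (Prod.map RR_T RR_T) (volume.prod volume)
      (((volume : Measure ℝ).restrict (Ici 0)).prod ((volume : Measure ℝ).restrict (Ici 0))) :=
    RR_mp.prod RR_mp
  have hpt : ∀ p : ℂ × ℂ, Real.log (max ‖p.1‖ ‖p.2‖) * (lif g p.1 * lif g p.2) =
      K (Prod.map RR_T RR_T p) := fun p => by
    simp only [hK, Prod.map_fst, Prod.map_snd]
    have hgz : ∀ x : ℂ, lif g x = g (RR_T x) := fun x => rfl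
    rw [← hgz, ← hgz]
    by_cases h0 : max ‖p.1‖ ‖p.2‖ = 0
    · have h1 : ‖p.1‖ = 0 := le_antisymm (h0 ▸ le_max_left _ _) (norm_nonneg _)
      have h2 : lif g p.1 = 0 := by
        unfold lif
        rw [h1]
        exact h.zero _ (by simp)
      rw [h2]
      ring
    · have h1 : 0 < max ‖p.1‖ ‖p.2‖ := lt_of_le_of_ne (le_max_of_le_left (norm_nonneg _))
        (Ne.symm h0)
      have h2 : max (RR_T p.1) (RR_T p.2) = Real.pi * max ‖p.1‖ ‖p.2‖ ^ 2 := by
        unfold RR_T
        rw [← mul_max_of_nonneg _ _ hpi.le]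
        congr 1
        rcases le_total ‖p.1‖ ‖p.2‖ with h3 | h3
        · rw [max_eq_right h3, max_eq_right (by gcongr)]
        · rw [max_eq_left h3, max_eq_left (by gcongr)]
      rw [h2, Real.log_mul hpi.ne' (by positivity), Real.log_pow]
      push_cast
      ring
  have hI2 : Integrable K (((volume : Measure ℝ).restrict (Ici 0)).prod
      ((volume : Measure ℝ).restrict (Ici 0))) := by
    refine (hmp.integrable_comp hKm.aestronglyMeasurable).1 ?_
    refine hI.congr (Filter.Eventually.of_forall fun p => ?_)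
    exact hpt p
  have hE2 : ∫ p : ℂ × ℂ, Real.log (max ‖p.1‖ ‖p.2‖) * (lif g p.1 * lif g p.2) =
      ∫ p, K p ∂(((volume : Measure ℝ).restrict (Ici 0)).prod
        ((volume : Measure ℝ).restrict (Ici 0))) := by
    rw [← hmp.map_eq, integral_map hmp.measurable.aemeasurable hKm.aestronglyMeasurable]
    exact integral_congr_ae (Filter.Eventually.of_forall hpt)
  rw [Measure.prod_restrict] at hI2 hE2
  have hKz : ∀ p : ℝ × ℝ, p ∉ Ici (0 : ℝ) ×ˢ Ici (0 : ℝ) → K p = 0 := fun p hp => by
    simp only [mem_prod, mem_Ici, not_and_or, not_le] at hp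
    rcases hp with hp | hp
    · simp [hK, h.zero _ hp.le]
    · simp [hK, h.zero _ hp.le]
  have hI3 : Integrable K (volume.prod volume) :=
    (integrableOn_iff_integrable_of_support_subset (fun p hp => by
      by_contra hc
      exact hp (hKz p hc))).1 hI2
  rw [setIntegral_eq_integral_of_forall_compl_eq_zero hKz] at hE2
  have hgg : Integrable (fun p : ℝ × ℝ => g p.1 * g p.2) (volume.prod volume) :=
    h.int.mul_prod h.int
  have hgg1 : ∫ p : ℝ × ℝ, g p.1 * g p.2 ∂(volume.prod volume) = 1 := by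
    rw [integral_prod_mul, h.one, one_mul]
  have hKe : ∀ p : ℝ × ℝ, Real.log (max p.1 p.2) * (g p.1 * g p.2) =
      2 * K p + Real.log Real.pi * (g p.1 * g p.2) := fun p => by
    simp only [hK]
    ring
  have hL : L1 g = 2 * ∫ p, K p ∂(volume.prod volume) + Real.log Real.pi := by
    unfold L1
    rw [Measure.volume_eq_prod]
    simp only [hKe]
    rw [integral_add (hI3.const_mul 2) (hgg.const_mul _), integral_const_mul, integral_const_mul,
      hgg1, mul_one]
  rw [hE2, hL]
  ring

end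

end Pool.Agent.Lib_helper68.MC
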